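import Mathlib
import Pool.Agent.N46.CS.CEN
import Pool.Agent.N46.CS.NFR
import Pool.Agent.N46.CS.NFM
import Pool.Agent.N46.CS.NFB
import Pool.Agent.N46.CS.CVA
import Pool.Agent.N46.CS.CVM
import Pool.Agent.N46.CS.CNB
import Pool.Agent.N46.CS.AFF
import Pool.Agent.N46.CS.EXU
import Pool.Agent.N46.CS.FOP
import Pool.Agent.N46.RV.Asm
import Pool.Agent.N46.RV.RFI
import Pool.Agent.N46.RV.RCN
import Pool.Agent.N46.RV.NIC
import Pool.Agent.N46.RV.RPT
import Pool.Agent.N46.RV.RCL
import Pool.Agent.N46.RV.RIR
import Pool.Agent.N46.RV.CMP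
import Pool.Agent.N46.RV.NOI
import Pool.Agent.N46.RV.EXF
import Pool.Agent.N46.RV.ZOP
import Pool.Agent.N46.RV.LOG
import Pool.Agent.N46.RV.LIN
import Pool.Agent.N46.RV.DFF

/-!
# A non-logarithmic component of the center variety through a product of lines in general position

For every `d ≥ 3` there are `d + 1` affine lines in general position (no two parallel, no three
through a common point), with product `f`, such that `F(df)` lies on an irreducible component `X` of
the center variety `M(d)` which is different from all the components `L(d_1, ..., d_s)` of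
logarithmic foliations. This is a negative answer to Q1 of MP_aa1ef7_ag (its negated form), for every
`d ≥ 3`.

Idea: the forms `P dy - Q dx` which are invariant under `(x, y) ↦ (-x, y)` form a linear space; the
reduced singular points on the axis `x = 0` are centers, so this irreducible set is contained in
`M(d)`, hence in a component `X`. It contains `df` for every even `f`, for example for the product of
the `d + 1` lines `y = m x + m²`, `m = 2 i - d`, which are in general position. But logarithmic forms
have the integrating factor `f_1 ⋯ f_s` of degree `≤ d + 1`, a closed condition, and the reversible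
form `dy - 2 x (x² + y²) dx` has no polynomial integrating factor at all.

Authors: helper46 (idea, statements, assembly), and for the parts the helpers named in the claim
file. The Zariski topology, the forms and `HasCenterAt` are those of MP_9e47d4_ag.
-/

set_option autoImplicit false

namespace Pool.Agent.Results.MP_aa1ef7_ag.ReversibleComponent

open MvPolynomial Pool.Agent.Y215.CC Pool.Agent.N46.CS Pool.Agent.N46.RV
open scoped LinearAlgebra.Projectivization

/-- The closed set `M(d)`. -/
def centerVariety (d : ℕ) : Set (ℙ ℂ (Frm d)) := closure (centers d)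

/-- `X` is an irreducible component of `M`: a maximal irreducible subset of `M`. -/
def IsComponent {d : ℕ} (M X : Set (ℙ ℂ (Frm d))) : Prop :=
  Maximal (fun Z => IsIrreducible Z ∧ Z ⊆ M) X

/-- `l` is a family of lines in general position: polynomials of degree one, no two of the lines
parallel, no three through a common point. -/
def GeneralPosition {n : ℕ} (l : Fin n → MvPolynomial (Fin 2) ℂ) : Prop :=
  (∀ i, (l i).totalDegree = 1) ∧
  (∀ i j, i ≠ j → coeff (Finsupp.single 0 1) (l i) * coeff (Finsupp.single 1 1) (l j) ≠
    coeff (Finsupp.single 0 1) (l j) * coeff (Finsupp.single 1 1) (l i)) ∧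
  ∀ i j k, i ≠ j → j ≠ k → i ≠ k → ∀ p : Fin 2 → ℂ,
    ¬ (eval p (l i) = 0 ∧ eval p (l j) = 0 ∧ eval p (l k) = 0)

/-- The foliation `F(df)` is a point of `X`. -/
def DiffIn {d : ℕ} (X : Set (ℙ ℂ (Frm d))) (f : MvPolynomial (Fin 2) ℂ) : Prop :=
  ∃ (w : Frm d) (hw : w ≠ 0), fP w = pderiv 1 f ∧ fQ w = -pderiv 0 f ∧
    Projectivization.mk ℂ w hw ∈ X

/-- For every `d ≥ 3` there are `d + 1` lines in general position, with product `f`, and an
irreducible component `X` of `M(d)` which contains `F(df)` and is not contained in the closure of any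
set `L(d_1, ..., d_s)`, `∑ d_i = d + 1`. -/
theorem result (d : ℕ) (hd : 3 ≤ d) :
    ∃ (l : Fin (d + 1) → MvPolynomial (Fin 2) ℂ) (X : Set (ℙ ℂ (Frm d))), GeneralPosition l ∧
      IsComponent (centerVariety d) X ∧ DiffIn X (∏ i, l i) ∧
      ∀ (s : ℕ) (dd : Fin s → ℕ), (∀ i, 1 ≤ dd i) → ∑ i, dd i = d + 1 →
        ¬ X ⊆ closure (Log d s dd) ∧ X ≠ Log d s dd := by
  have hCEN := t_CEN t_NFR t_NFM t_NFB t_CVA t_CVM t_CNB
  have hRCN := t_RCN t_RFI hCEN t_AFF
  have hRPT := t_RPT hRCN t_EXU
  have hRCL := t_RCL t_NIC hRPT t_FOP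
  obtain ⟨X, hX, hYX, hL⟩ := Asm.comp hRCL t_RIR t_CMP t_NOI t_EXF t_ZOP d hd
  obtain ⟨h1, h2, h3, h4⟩ := t_LIN d (by omega)
  refine ⟨ln d, X, ⟨?_, h3, h4⟩, hX, ?_, ?_⟩
  · intro i
    refine le_antisymm ?_ ?_
    · unfold ln
      refine (totalDegree_sub _ _).trans (max_le ((totalDegree_sub _ _).trans (max_le ?_ ?_)) ?_)
      · rw [totalDegree_X]
      · refine (totalDegree_mul _ _).trans ?_
        rw [totalDegree_C, totalDegree_X]
      · rw [totalDegree_C]; exact Nat.zero_le _
    · by_contra hcon
      have h5 : (ln d i).totalDegree = 0 := by omega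
      rw [totalDegree_eq_zero_iff_eq_C] at h5
      have h6 : coeff (Finsupp.single (1 : Fin 2) 1) (ln d i) = 1 := by
        have e1 : ¬ ((Finsupp.single (0 : Fin 2) 1 : Fin 2 →₀ ℕ) = Finsupp.single 1 1) := by
          intro h
          have := DFunLike.congr_fun h 1
          simp at this
        have e2 : ¬ ((0 : Fin 2 →₀ ℕ) = Finsupp.single 1 1) := by
          intro h
          have := DFunLike.congr_fun h 1
          simp at this
        unfold ln
        rw [coeff_sub, coeff_sub, coeff_X, coeff_C_mul, coeff_X, coeff_C]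
        simp [e1, e2]
      rw [h5, coeff_C] at h6
      rw [if_neg] at h6
      · exact zero_ne_one h6
      · intro h
        have := DFunLike.congr_fun h 1
        simp at this
  · exact Asm.diffIn t_DFF hYX _ (by rw [h2]) (by rw [h2]; omega) h1
  · intro s dd _ hs
    have h7 := hL _ (t_LOG d s dd hs)
    exact ⟨h7, fun h => h7 (h ▸ subset_closure)⟩

end Pool.Agent.Results.MP_aa1ef7_ag.ReversibleComponent
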